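import Pool.Agent.Helper75.FU.StL

/-!
# Project FU, module L5: the lemma on lattices and cones
-/

set_option autoImplicit false

namespace Pool.Agent.Helper47.FU

open Pool.Agent.Helper75.FU

/-! ### `ℤ[1/p]` -/

lemma pz_up {p : ℕ} {x : ℚ} {k : ℕ} (h : ∃ z : ℤ, x * (p : ℚ) ^ k = z) {k' : ℕ} (hk : k ≤ k') :
    ∃ z : ℤ, x * (p : ℚ) ^ k' = z := by
  obtain ⟨z, hz⟩ := h
  refine ⟨z * (p : ℤ) ^ (k' - k), ?_⟩
  have h1 : (p : ℚ) ^ k' = (p : ℚ) ^ k * (p : ℚ) ^ (k' - k) := by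
    rw [← pow_add, Nat.add_sub_cancel' hk]
  rw [h1, ← mul_assoc, hz]
  push_cast
  rfl

lemma pz_int (p : ℕ) (z : ℤ) : PZ p (z : ℚ) := ⟨0, z, by simp⟩

lemma pz_add {p : ℕ} {x y : ℚ} (hx : PZ p x) (hy : PZ p y) : PZ p (x + y) := by
  obtain ⟨k, hk⟩ := hx
  obtain ⟨l, hl⟩ := hy
  obtain ⟨z, hz⟩ := pz_up hk (le_max_left k l)
  obtain ⟨w, hw⟩ := pz_up hl (le_max_right k l)
  exact ⟨max k l, z + w, by rw [add_mul, hz, hw]; push_cast; rfl⟩

lemma pz_mul {p : ℕ} {x y : ℚ} (hx : PZ p x) (hy : PZ p y) : PZ p (x * y) := by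
  obtain ⟨k, z, hz⟩ := hx
  obtain ⟨l, w, hw⟩ := hy
  refine ⟨k + l, z * w, ?_⟩
  push_cast
  rw [← hz, ← hw, pow_add]
  ring

lemma pz_sum {p : ℕ} {ι : Type*} (s : Finset ι) (f : ι → ℚ) (h : ∀ i ∈ s, PZ p (f i)) :
    PZ p (∑ i ∈ s, f i) := by
  classical
  induction s using Finset.induction_on with
  | empty => simpa using pz_int p 0
  | insert a s ha ih =>
    rw [Finset.sum_insert ha]
    exact pz_add (h a (Finset.mem_insert_self a s))
      (ih fun i hi => h i (Finset.mem_insert_of_mem hi))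

/-- a common exponent for finitely many monotone conditions -/
lemma common_exp {ι : Type*} (s : Finset ι) (P : ι → ℕ → Prop)
    (hm : ∀ i k k', k ≤ k' → P i k → P i k') (h : ∀ i ∈ s, ∃ k, P i k) :
    ∃ k, ∀ i ∈ s, P i k := by
  classical
  induction s using Finset.induction_on with
  | empty => exact ⟨0, fun i hi => absurd hi (Finset.notMem_empty i)⟩
  | insert a s ha ih =>
    obtain ⟨k, hk⟩ := ih fun i hi => h i (Finset.mem_insert_of_mem hi)
    obtain ⟨l, hl⟩ := h a (Finset.mem_insert_self a s)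
    refine ⟨max k l, fun i hi => ?_⟩
    rcases Finset.mem_insert.1 hi with rfl | hi
    · exact hm _ _ _ (le_max_right k l) hl
    · exact hm _ _ _ (le_max_left k l) (hk i hi)

/-- the subgroup of the differences of elements of `M` -/
def lam {n : ℕ} (M : AddSubmonoid (Fin n → ℕ)) : AddSubgroup (Fin n → ℤ) where
  carrier := {x | ∃ a ∈ M, ∃ b ∈ M, ∀ i, x i = (a i : ℤ) - b i}
  zero_mem' := ⟨0, M.zero_mem, 0, M.zero_mem, fun i => by simp⟩
  add_mem' := by
    rintro x y ⟨a, ha, b, hb, h⟩ ⟨a', ha', b', hb', h'⟩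
    refine ⟨a + a', M.add_mem ha ha', b + b', M.add_mem hb hb', fun i => ?_⟩
    simp only [Pi.add_apply, h, h']
    push_cast
    ring
  neg_mem' := by
    rintro x ⟨a, ha, b, hb, h⟩
    refine ⟨b, hb, a, ha, fun i => ?_⟩
    simp only [Pi.neg_apply, h]
    ring

lemma mem_lam {n : ℕ} {M : AddSubmonoid (Fin n → ℕ)} {x : Fin n → ℤ} :
    x ∈ lam M ↔ ∃ a ∈ M, ∃ b ∈ M, ∀ i, x i = (a i : ℤ) - b i := Iff.rfl

/-- L5. THE LEMMA. -/
theorem hL5 (hL1 : StL1) (hL2 : StL2) (hL3 : StL3) (hL4 : StL4) : StL5 := by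
  classical
  intro n M D hD hDM K hK p hp
  have hp0 : (0 : ℚ) < p := by exact_mod_cast (by omega : 0 < p)
  -- the basis `g`
  obtain ⟨g, hgΛ, hgt, hgp, hgs⟩ := hL1 n (lam M) (D : ℤ) (by exact_mod_cast hD) (fun i => by
    refine mem_lam.2 ⟨Pi.single i D, hDM i, 0, M.zero_mem, fun j => ?_⟩
    by_cases hj : j = i
    · subst hj; simp
    · simp [Pi.single_eq_of_ne hj])
  -- the number `ε`
  obtain ⟨ε, hε, h3⟩ := hL3 n (fun j => (g j j : ℚ)) (fun j => by exact_mod_cast hgp j)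
    (K.image fun m i => (m i : ℚ)) (by
      intro x hx i
      obtain ⟨m, hm, rfl⟩ := Finset.mem_image.1 hx
      change (0 : ℚ) < (m i : ℚ)
      exact_mod_cast (hK m hm).2 i)
  -- the vectors `f`
  obtain ⟨f, hfp, hfo, hfd, hfg, hgf⟩ := hL2 n p hp g hgt hgp ε hε
  obtain ⟨hli, hz⟩ := h3 f (fun j i hij => by
    rw [abs_of_pos (hfp j i)]; exact hfo j i hij) hfd
  -- the coordinates of the elements of `K`
  have hcoord : ∀ m ∈ K, ∃ z : Fin n → ℚ, (∀ j, 0 < z j) ∧ (∀ j, PZ p (z j)) ∧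
      (fun i => (m i : ℚ)) = ∑ j, z j • f j := by
    intro m hm
    obtain ⟨z, hzp, hzs⟩ := hz _ (Finset.mem_image_of_mem (fun m i => (m i : ℚ)) hm)
    refine ⟨z, hzp, ?_, hzs⟩
    have hmΛ : (fun i => (m i : ℤ)) ∈ lam M :=
      mem_lam.2 ⟨m, (hK m hm).1, 0, M.zero_mem, fun i => by simp⟩
    obtain ⟨c, hc⟩ := hgs _ hmΛ
    choose d hd1 hd2 using hgf
    have h4 : (fun i => (m i : ℚ)) = ∑ l, (∑ j, (c j : ℚ) * d j l) • f l := by
      have h5 : (fun i => (m i : ℚ)) = ∑ j, (c j : ℚ) • (fun i => (g j i : ℚ)) := by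
        funext i
        have h6 := congrFun hc i
        simp only [Finset.sum_apply, Pi.smul_apply, smul_eq_mul] at h6
        simp only [Finset.sum_apply, Pi.smul_apply, smul_eq_mul]
        have h7 : ((m i : ℤ) : ℚ) = ((∑ j, c j * g j i : ℤ) : ℚ) := by rw [← h6]
        push_cast at h7
        exact h7
      rw [h5]
      simp only [hd2, Finset.smul_sum, smul_smul, Finset.sum_smul]
      rw [Finset.sum_comm]
    have h8 : ∑ l, (z l - ∑ j, (c j : ℚ) * d j l) • f l = 0 := by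
      simp only [sub_smul, Finset.sum_sub_distrib]
      rw [← hzs, ← h4, sub_self]
    have h9 := (Fintype.linearIndependent_iff.1 hli) _ h8
    intro l
    have h10 : z l = ∑ j, (c j : ℚ) * d j l := sub_eq_zero.1 (h9 l)
    rw [h10]
    exact pz_sum _ _ fun j _ => pz_mul (pz_int p _) (hd1 j l)
  choose! z hzp hzz hzs using hcoord
  -- the exponent `e₁`
  obtain ⟨e₁, he₁⟩ := common_exp (K ×ˢ (Finset.univ : Finset (Fin n)))
    (fun q k => ∃ w : ℤ, z q.1 q.2 * (p : ℚ) ^ k = w)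
    (fun q k k' hk h => pz_up h hk)
    (fun q hq => hzz q.1 (Finset.mem_product.1 hq).1 q.2)
  -- `c₀`
  obtain ⟨c₀, hc₀⟩ := hL4 n M D hD hDM
  -- the exponent `e₂`
  choose c hc1 hc2 using hfg
  obtain ⟨e₂, he₂⟩ := common_exp (Finset.univ : Finset (Fin n × Fin n))
    (fun q k => (∃ w : ℤ, c q.1 q.2 * (p : ℚ) ^ k = w) ∧ (c₀ : ℚ) ≤ f q.1 q.2 * (p : ℚ) ^ k)
    (fun q k k' hk h => by
      refine ⟨pz_up h.1 hk, h.2.trans ?_⟩
      have h11 : (p : ℚ) ^ k ≤ (p : ℚ) ^ k' :=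
        pow_le_pow_right₀ (by exact_mod_cast (by omega : 1 ≤ p)) hk
      exact mul_le_mul_of_nonneg_left h11 (hfp q.1 q.2).le)
    (fun q _ => by
      obtain ⟨k, hk⟩ := hc1 q.1 q.2
      obtain ⟨l, hl⟩ := pow_unbounded_of_one_lt ((c₀ : ℚ) / f q.1 q.2)
        (by exact_mod_cast (by omega : 1 < p) : (1 : ℚ) < p)
      refine ⟨max k l, pz_up hk (le_max_left k l), ?_⟩
      have h12 : (c₀ : ℚ) < (p : ℚ) ^ l * f q.1 q.2 := (div_lt_iff₀ (hfp q.1 q.2)).1 hl
      have h13 : (p : ℚ) ^ l ≤ (p : ℚ) ^ max k l :=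
        pow_le_pow_right₀ (by exact_mod_cast (by omega : 1 ≤ p)) (le_max_right k l)
      have h14 := mul_le_mul_of_nonneg_left h13 (hfp q.1 q.2).le
      linarith [mul_comm ((p : ℚ) ^ l) (f q.1 q.2)])
  -- integer vectors `y j = p^e₂ f j`
  have hy : ∀ j, ∃ y : Fin n → ℤ, y ∈ lam M ∧ ∀ i, (y i : ℚ) = f j i * (p : ℚ) ^ e₂ := by
    intro j
    have h15 : ∀ l, ∃ w : ℤ, c j l * (p : ℚ) ^ e₂ = w := fun l => (he₂ (j, l) (Finset.mem_univ _)).1
    choose w hw using h15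
    refine ⟨∑ l, w l • g l, AddSubgroup.sum_mem _ fun l _ => AddSubgroup.zsmul_mem _ (hgΛ l) _,
      fun i => ?_⟩
    have h16 := congrFun (hc2 j) i
    simp only [Finset.sum_apply, Pi.smul_apply, smul_eq_mul] at h16
    simp only [Finset.sum_apply, Pi.smul_apply, smul_eq_mul]
    push_cast
    rw [h16, Finset.sum_mul]
    refine Finset.sum_congr rfl fun l _ => ?_
    rw [← hw]
    ring
  choose y hyΛ hyf using hy
  have hyc : ∀ j i, (c₀ : ℤ) ≤ y j i := by
    intro j i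
    have h17 := (he₂ (j, i) (Finset.mem_univ _)).2
    simp only at h17
    rw [← hyf j i] at h17
    exact_mod_cast h17
  have hy0 : ∀ j i, 0 ≤ y j i := fun j i => le_trans (by positivity) (hyc j i)
  have hF : ∀ j i, (((y j i).toNat : ℕ) : ℤ) = y j i := fun j i => Int.toNat_of_nonneg (hy0 j i)
  have hFQ : ∀ j i, (((y j i).toNat : ℕ) : ℚ) = f j i * (p : ℚ) ^ e₂ := by
    intro j i
    rw [← hyf j i]
    exact_mod_cast congrArg (fun t : ℤ => (t : ℚ)) (hF j i)
  refine ⟨e₁ + e₂, fun j i => (y j i).toNat, ?_, ?_, ?_⟩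
  · intro j
    refine hc₀ _ (fun i => ?_) ?_
    · have h18 := hyc j i
      rw [← hF j i] at h18
      exact_mod_cast h18
    · obtain ⟨a, ha, b, hb, hab⟩ := mem_lam.1 (hyΛ j)
      refine ⟨a, ha, b, hb, ?_⟩
      funext i
      have h19 := hab i
      rw [← hF j i] at h19
      simp only [Pi.add_apply]
      omega
  · intro a b hab
    have h20 : ∑ j, (((a j : ℚ) - b j) * (p : ℚ) ^ e₂) • f j = 0 := by
      funext i
      have h21 := congrFun hab i
      simp only [Finset.sum_apply, Pi.smul_apply, smul_eq_mul] at h21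
      have h22 : ((∑ j, a j * (y j i).toNat : ℕ) : ℚ) = ((∑ j, b j * (y j i).toNat : ℕ) : ℚ) := by
        rw [h21]
      push_cast [hFQ] at h22
      simp only [Finset.sum_apply, Pi.smul_apply, smul_eq_mul, Pi.zero_apply]
      have h23 : ∑ j, ((a j : ℚ) - b j) * (p : ℚ) ^ e₂ * f j i
          = ∑ j, (a j : ℚ) * (f j i * (p : ℚ) ^ e₂) - ∑ j, (b j : ℚ) * (f j i * (p : ℚ) ^ e₂) := by
        rw [← Finset.sum_sub_distrib]
        refine Finset.sum_congr rfl fun j _ => ?_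
        ring
      rw [h23, h22, sub_self]
    have h24 := (Fintype.linearIndependent_iff.1 hli) _ h20
    funext j
    have h25 : (a j : ℚ) - b j = 0 :=
      (mul_eq_zero.1 (h24 j)).resolve_right (pow_ne_zero _ hp0.ne')
    have h26 : (a j : ℚ) = b j := sub_eq_zero.1 h25
    exact_mod_cast h26
  · intro m hm
    have h27 : ∀ j, ∃ w : ℤ, z m j * (p : ℚ) ^ e₁ = w := fun j =>
      he₁ (m, j) (Finset.mem_product.2 ⟨hm, Finset.mem_univ _⟩)
    choose w hw using h27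
    have hw0 : ∀ j, 0 ≤ w j := by
      intro j
      have h28 : (0 : ℚ) ≤ w j := by
        rw [← hw j]
        exact mul_nonneg (hzp m hm j).le (pow_nonneg hp0.le _)
      exact_mod_cast h28
    refine ⟨fun j => (w j).toNat, ?_⟩
    funext i
    have h29 := congrFun (hzs m hm) i
    simp only [Finset.sum_apply, Pi.smul_apply, smul_eq_mul] at h29
    simp only [Finset.sum_apply, Pi.smul_apply, smul_eq_mul]
    have h30 : ((p ^ (e₁ + e₂) * m i : ℕ) : ℚ) = ((∑ j, (w j).toNat * (y j i).toNat : ℕ) : ℚ) := by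
      have h31 : ∀ j, (((w j).toNat : ℕ) : ℚ) = z m j * (p : ℚ) ^ e₁ := by
        intro j
        rw [hw j]
        exact_mod_cast congrArg (fun t : ℤ => (t : ℚ)) (Int.toNat_of_nonneg (hw0 j))
      push_cast [hFQ, h31]
      rw [h29, Finset.mul_sum, pow_add]
      refine Finset.sum_congr rfl fun j _ => ?_
      ring
    exact_mod_cast h30

end Pool.Agent.Helper47.FU
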